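import Pool.Agent.Helper9.CG.Algebra
import Pool.Agent.Helper7.CG.Count
import Pool.Agent.Helper18.CG.Cross
import Pool.Agent.Helper72.CG.Keep
import Pool.Agent.Helper68.CG.Round
import Pool.Agent.Helper85.CliqueLB1

/-!
# Project CG, module F: one phase of the game
-/

set_option autoImplicit false

namespace Pool.Agent.Helper75.CG

open scoped Classical
open Finset
open Pool.Agent.Helper65.CliqueGame

namespace PhaseAux

section basic

variable {V : Type} [Fintype V] {ι : Type}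

theorem claims_empty (μ : ℝ) (κ : ι → Finset V) (f : Finset V → ℝ) :
    claims μ κ ∅ f = f := by
  funext A
  simp [claims]

theorem claims_insert (μ : ℝ) (κ : ι → Finset V) {I : Finset ι} {i : ι} (hi : i ∉ I)
    (f : Finset V → ℝ) :
    claims μ κ (insert i I) f = claim1 μ (κ i) (claims μ κ I f) := by
  funext A
  unfold claims claim1
  rw [filter_insert]
  by_cases h : κ i ⊆ A
  · rw [if_pos h, if_pos h, card_insert_of_notMem (by simp [hi]), pow_succ]
    ring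
  · rw [if_neg h, if_neg h]

theorem claims_union (μ : ℝ) (κ : ι → Finset V) {I J : Finset ι} (h : Disjoint I J)
    (f : Finset V → ℝ) : claims μ κ (I ∪ J) f = claims μ κ J (claims μ κ I f) := by
  funext A
  unfold claims
  rw [filter_union, card_union_of_disjoint (disjoint_filter_filter h), pow_add]
  ring

theorem claims_pos {μ : ℝ} (hμ : 0 ≤ μ) (κ : ι → Finset V) (I : Finset ι)
    {cap : Finset V → ℝ} (h : ∀ S, 0 < cap S) (S : Finset V) : 0 < claims μ κ I cap S := by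
  unfold claims
  exact mul_pos (pow_pos (by linarith) _) (h S)

theorem claims_nonneg {μ : ℝ} (hμ : 0 ≤ μ) (κ : ι → Finset V) (I : Finset ι)
    {φ : Finset V → ℝ} (h : ∀ S, 0 ≤ φ S) (S : Finset V) : 0 ≤ claims μ κ I φ S := by
  unfold claims
  exact mul_nonneg (pow_nonneg (by linarith) _) (h S)

theorem claims_mono {μ : ℝ} (hμ : 0 ≤ μ) (κ : ι → Finset V) {I J : Finset ι} (h : I ⊆ J)
    {f : Finset V → ℝ} (S : Finset V) (hf : 0 ≤ f S) : claims μ κ I f S ≤ claims μ κ J f S := by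
  unfold claims
  refine mul_le_mul_of_nonneg_right ?_ hf
  exact pow_le_pow_right₀ (by linarith) (card_le_card (filter_subset_filter _ h))

theorem claims_le {μ : ℝ} (hμ : 0 ≤ μ) (κ : ι → Finset V) (I : Finset ι)
    {f : Finset V → ℝ} (S : Finset V) (hf : 0 ≤ f S) :
    claims μ κ I f S ≤ (1 + μ) ^ I.card * f S := by
  unfold claims
  refine mul_le_mul_of_nonneg_right ?_ hf
  exact pow_le_pow_right₀ (by linarith) (card_le_card (filter_subset _ _))

theorem mass_nonneg {φ : Finset V → ℝ} (h : ∀ A, 0 ≤ φ A) (S : Finset V) : 0 ≤ mass φ S :=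
  sum_nonneg fun A _ => h A

theorem mass_le_mass {φ φ' : Finset V → ℝ} (h : ∀ A, φ A ≤ φ' A) (S : Finset V) :
    mass φ S ≤ mass φ' S := sum_le_sum fun A _ => h A

theorem exists_of_mass {φ : Finset V → ℝ} {S : Finset V} (h : mass φ S ≠ 0) :
    ∃ A, S ⊆ A ∧ φ A ≠ 0 := by
  obtain ⟨A, hA, h'⟩ := exists_ne_zero_of_sum_ne_zero h
  rw [mem_filter] at hA
  exact ⟨A, hA.2, h'⟩

theorem PP_mono_cap (SS : Finset (Finset V)) (φ : Finset V → ℝ) {cap cap' : Finset V → ℝ}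
    (hcap : ∀ S, 0 < cap S) (h : ∀ S, cap S ≤ cap' S) : PP SS φ cap ≤ PP SS φ cap' := by
  unfold PP
  refine sub_le_sub_left (sum_le_sum fun S _ => ?_) _
  exact div_le_div_of_nonneg_left (sq_nonneg _) (hcap S) (h S)

theorem DD_le_mass (SS : Finset (Finset V)) {φ cap : Finset V → ℝ} (hφ : ∀ A, 0 ≤ φ A)
    (hcap : ∀ S, 0 < cap S) (κ : Finset V) : DD SS φ cap κ ≤ mass φ κ := by
  unfold DD
  refine sub_le_self _ (sum_nonneg fun S _ => ?_)
  refine mul_nonneg (mul_nonneg ?_ ?_) (mass_nonneg hφ _)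
  · split_ifs <;> norm_num
  · exact div_nonneg (mass_nonneg hφ _) (hcap S).le

theorem slopeA_claims {ν μ : ℝ} {SS : Finset (Finset V)} {φ cap : Finset V → ℝ}
    {act : Finset ι} {κ : ι → Finset V} (h : SlopeA ν SS φ cap act κ μ) (hμ : 0 ≤ μ)
    (I : Finset ι) (hI : I ⊆ act) :
    SlopeA ν SS (claims μ κ I φ) (claims μ κ I cap) (act \ I) κ μ := by
  induction I using Finset.induction_on with
  | empty =>
    rw [claims_empty, claims_empty, sdiff_empty]
    exact h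
  | insert i I hi ih =>
    have h1 := ih ((subset_insert _ _).trans hI)
    rw [claims_insert μ κ hi, claims_insert μ κ hi]
    have h2 := h1.claim hμ (i := i) (mem_sdiff.2 ⟨hI (mem_insert_self _ _), hi⟩)
    have h3 : act \ insert i I = (act \ I).erase i := by
      ext j
      simp only [mem_sdiff, mem_insert, mem_erase]
      tauto
    rw [h3]
    exact h2

end basic

/-- The data of a phase. -/
structure Data (V ι : Type) [Fintype V] where
  n : ℕ
  q : ℕ
  m : ℕ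
  b : ℕ
  emb : V ↪ Fin n
  SS : Finset (Finset V)
  act : Finset ι
  κ : ι → Finset V
  ed : ι → Finset (Sym2 (Fin n))
  μ : ℕ
  k : ℕ
  ν : ℝ
  g3 : ℝ
  g1 : ι → ℝ
  g2 : ι → ℝ
  φ : Finset V → ℝ
  cap : Finset V → ℝ
  M : Finset (Sym2 (Fin n))
  B : Finset (Sym2 (Fin n))
  C0 : ℝ

section state

variable {V ι : Type} [Fintype V]

/-- The hypotheses of a phase. -/
structure Hyp (D : Data V ι) : Prop where
  hμ : 1 ≤ D.μ
  hk : 1 ≤ D.k
  hkμ : D.k * D.μ = D.m
  hν : 0 ≤ D.ν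
  hcard : ∀ i ∈ D.act, (D.κ i).card ≤ D.b
  hed : ∀ i ∈ D.act, (D.ed i).card ≤ D.μ
  hedge : ∀ i ∈ D.act, ∀ e ∈ D.ed i, ∃ x ∈ D.κ i, ∃ y ∈ D.κ i, x ≠ y ∧
    e = s(D.emb x, D.emb y)
  hdis : ∀ i ∈ D.act, ∀ j ∈ D.act, i ≠ j → Disjoint (D.ed i) (D.ed j)
  hlink : ∀ A, D.φ A ≠ 0 → ∀ i ∈ D.act, ∀ x ∈ A, ∀ y ∈ A, s(D.emb x, D.emb y) ∈ D.ed i →
    D.κ i ⊆ A
  hφ : ∀ A, 0 ≤ D.φ A
  hcap : ∀ S, 0 < D.cap S
  hg1 : ∀ i ∈ D.act, D.κ i ∈ D.SS ∧ claims (D.μ : ℝ) D.κ D.act D.cap (D.κ i) ≤ D.g1 i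
  hg2 : ∀ i ∈ D.act, 0 ≤ D.g2 i
  hg2' : ∀ i ∈ D.act, ∀ j ∈ D.act, i ≠ j → (∃ A, D.φ A ≠ 0 ∧ D.κ i ∪ D.κ j ⊆ A) →
      D.κ i ∪ D.κ j ∈ D.SS ∧ claims (D.μ : ℝ) D.κ D.act D.cap (D.κ i ∪ D.κ j) ≤ D.g2 i
  hg3 : 0 ≤ D.g3
  hpas : ∀ x y, x ≠ y → s(D.emb x, D.emb y) ∉ D.M →
    (∀ i ∈ D.act, s(D.emb x, D.emb y) ∉ D.ed i) → (∃ A, D.φ A ≠ 0 ∧ x ∈ A ∧ y ∈ A) →
      ∃ S ∈ D.SS, (∀ A, D.φ A ≠ 0 → x ∈ A → y ∈ A → S ⊆ A) ∧
        claims (D.μ : ℝ) D.κ D.act D.cap S ≤ D.g3
  hC0 : 0 < D.C0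
  hround : ∀ (φ cap : Finset V → ℝ) (act : Finset ι),
    (∀ i ∈ act, (D.κ i).card ≤ D.b) →
    Good 1 D.SS φ cap → SlopeA D.ν D.SS φ cap act D.κ D.μ →
    (∀ i ∈ act, 0 ≤ DD D.SS φ cap (D.κ i)) →
    (∀ i ∈ act, mass φ (D.κ i) ≤ D.g1 i) → (∀ i ∈ act, 0 ≤ D.g2 i) →
    (∀ i ∈ act, ∀ j ∈ act, i ≠ j → mass φ (D.κ i ∪ D.κ j) ≤ D.g2 i) →
    ∃ I ⊆ act, I.card ≤ D.k ∧ (act.Nonempty → I.Nonempty) ∧
      ∀ J ⊆ act \ I, J.card ≤ D.m →
        PP D.SS φ cap - D.C0 * ∑ i ∈ I ∪ J, (D.ν * D.g1 i + D.g2 i) ≤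
          PP D.SS (kills D.κ J (claims (D.μ : ℝ) D.κ I φ)) (claims (D.μ : ℝ) D.κ I cap)

/-- The constant of the phase. -/
noncomputable def CC (D : Data V ι) : ℝ := D.C0 + (D.m ^ 2 + 1) * 2 ^ D.b + D.m * 2 ^ D.m

/-- The error of the element `i`. -/
noncomputable def err (D : Data V ι) (i : ι) : ℝ := D.ν * D.g1 i + D.g2 i + D.g3

/-- The positions inside the phase. -/
structure State (D : Data V ι) (U Cl : Finset ι) (φt : Finset V → ℝ)
    (Mt Bt : Finset (Sym2 (Fin D.n))) : Prop where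
  hU : U ⊆ D.act
  hCl : Cl ⊆ D.act
  hd : Disjoint Cl U
  hM : D.M ⊆ Mt
  hB : D.B ⊆ Bt
  hMB : Disjoint Mt Bt
  hBe : Bt ⊆ edges D.n
  hφt : ∀ A, φt A = claims (D.μ : ℝ) D.κ Cl D.φ A ∨ φt A = 0
  hcl : ∀ i ∈ Cl, D.ed i ⊆ Mt
  hdead : ∀ i ∈ D.act, i ∉ U → i ∉ Cl → ∀ A, φt A ≠ 0 → ¬ D.κ i ⊆ A
  halive : AliveB D.emb φt Bt
  hsl : SlopeA D.ν D.SS φt (claims (D.μ : ℝ) D.κ Cl D.cap) U D.κ D.μ
  hPP : PP D.SS D.φ D.cap - CC D * ∑ i ∈ D.act \ U, err D i ≤
    PP D.SS φt (claims (D.μ : ℝ) D.κ Cl D.cap)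

variable {D : Data V ι}

theorem Hyp.μ0 (H : Hyp D) : (0 : ℝ) ≤ (D.μ : ℝ) := Nat.cast_nonneg _

theorem Hyp.g1_pos (H : Hyp D) {i : ι} (hi : i ∈ D.act) : 0 < D.g1 i :=
  (claims_pos H.μ0 D.κ D.act H.hcap (D.κ i)).trans_le (H.hg1 i hi).2

theorem Hyp.err_nonneg (H : Hyp D) {i : ι} (hi : i ∈ D.act) : 0 ≤ err D i := by
  unfold err
  have h1 := mul_nonneg H.hν (H.g1_pos hi).le
  have h2 := H.hg2 i hi
  have h3 := H.hg3
  linarith

theorem Hyp.CC_pos (H : Hyp D) : 0 < CC D := by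
  unfold CC
  have h1 := H.hC0
  positivity

theorem State.nonneg {U Cl : Finset ι} {φt : Finset V → ℝ} {Mt Bt : Finset (Sym2 (Fin D.n))}
    (H : Hyp D) (S : State D U Cl φt Mt Bt) (A : Finset V) : 0 ≤ φt A := by
  rcases S.hφt A with h | h
  · rw [h]
    exact claims_nonneg H.μ0 D.κ Cl H.hφ A
  · rw [h]

theorem State.ne_zero {U Cl : Finset ι} {φt : Finset V → ℝ} {Mt Bt : Finset (Sym2 (Fin D.n))}
    (S : State D U Cl φt Mt Bt) {A : Finset V} (hA : φt A ≠ 0) : D.φ A ≠ 0 := by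
  intro h0
  rcases S.hφt A with h | h
  · apply hA
    rw [h]
    unfold claims
    rw [h0, mul_zero]
  · exact hA h

theorem State.capt_pos {U Cl : Finset ι} {φt : Finset V → ℝ}
    {Mt Bt : Finset (Sym2 (Fin D.n))} (H : Hyp D) (_S : State D U Cl φt Mt Bt) (T : Finset V) :
    0 < claims (D.μ : ℝ) D.κ Cl D.cap T := claims_pos H.μ0 D.κ Cl H.hcap T

/-- The support can be made smaller. -/
theorem State.shrink {U Cl : Finset ι} {φt φ' : Finset V → ℝ}
    {Mt Bt : Finset (Sym2 (Fin D.n))} (H : Hyp D) (S : State D U Cl φt Mt Bt)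
    (h : ∀ A, φ' A = φt A ∨ φ' A = 0)
    (hPP : PP D.SS φt (claims (D.μ : ℝ) D.κ Cl D.cap) ≤
      PP D.SS φ' (claims (D.μ : ℝ) D.κ Cl D.cap)) : State D U Cl φ' Mt Bt := by
  have hne : ∀ A, φ' A ≠ 0 → φt A ≠ 0 := by
    intro A hA h0
    rcases h A with h1 | h1
    · exact hA (h1.trans h0)
    · exact hA h1
  refine { hU := S.hU, hCl := S.hCl, hd := S.hd, hM := S.hM, hB := S.hB, hMB := S.hMB,
           hBe := S.hBe, hcl := S.hcl, hφt := ?_, hdead := ?_, halive := ?_, hsl := ?_,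
           hPP := S.hPP.trans hPP }
  · intro A
    rcases h A with h1 | h1
    · rw [h1]
      exact S.hφt A
    · exact Or.inr h1
  · intro i hi hiU hiC A hA
    exact S.hdead i hi hiU hiC A (hne A hA)
  · intro A hA
    exact S.halive A (hne A hA)
  · exact S.hsl.mono H.μ0 (S.capt_pos H) hne (Finset.Subset.refl _)

/-- The mass of an undecided element is at most `g1`. -/
theorem State.mass_le {U Cl : Finset ι} {φt : Finset V → ℝ}
    {Mt Bt : Finset (Sym2 (Fin D.n))} (H : Hyp D) (S : State D U Cl φt Mt Bt)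
    (hG : Good 1 D.SS φt (claims (D.μ : ℝ) D.κ Cl D.cap)) {T : Finset V} (hT : T ∈ D.SS) {g : ℝ}
    (hg : claims (D.μ : ℝ) D.κ D.act D.cap T ≤ g) : mass φt T ≤ g := by
  have h1 := mass_le_cap hG zero_le_one hT
  rw [one_mul] at h1
  exact h1.trans ((claims_mono H.μ0 D.κ S.hCl T (H.hcap T).le).trans hg)

theorem State.RR_bound {U Cl : Finset ι} {φt : Finset V → ℝ}
    {Mt Bt : Finset (Sym2 (Fin D.n))} (H : Hyp D) (S : State D U Cl φt Mt Bt)
    (hG : Good 1 D.SS φt (claims (D.μ : ℝ) D.κ Cl D.cap)) {i : ι} (hi : i ∈ U) :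
    RR D.SS φt (claims (D.μ : ℝ) D.κ Cl D.cap) (D.κ i) ≤ 2 ^ D.b * err D i := by
  have hia := S.hU hi
  have h1 := RR_le hG H.hν (S.hsl.slope H.μ0 (S.capt_pos H) hi)
  have h2 := S.mass_le H hG (H.hg1 i hia).1 (H.hg1 i hia).2
  have h3 : (2 : ℝ) ^ (D.κ i).card ≤ 2 ^ D.b :=
    pow_le_pow_right₀ (by norm_num) (H.hcard i hia)
  have hm := mass_nonneg (S.nonneg H) (D.κ i)
  have hν := H.hν
  calc RR D.SS φt (claims (D.μ : ℝ) D.κ Cl D.cap) (D.κ i)
      ≤ D.ν * 2 ^ (D.κ i).card * 1 * mass φt (D.κ i) := h1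
    _ = 2 ^ (D.κ i).card * (D.ν * mass φt (D.κ i)) := by ring
    _ ≤ 2 ^ D.b * (D.ν * D.g1 i) := by
        refine mul_le_mul h3 (mul_le_mul_of_nonneg_left h2 hν) (mul_nonneg hν hm) (by positivity)
    _ ≤ 2 ^ D.b * err D i := by
        refine mul_le_mul_of_nonneg_left ?_ (by positivity)
        unfold err
        have := H.hg2 i hia
        have := H.hg3
        linarith

theorem sum_erase' (H : Hyp D) {U : Finset ι} (hU : U ⊆ D.act) {i : ι} (hi : i ∈ U) :
    ∑ j ∈ D.act \ U.erase i, err D j = ∑ j ∈ D.act \ U, err D j + err D i := by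
  have h : D.act \ U.erase i = insert i (D.act \ U) := by
    ext j
    simp only [mem_sdiff, mem_erase, mem_insert]
    constructor
    · rintro ⟨h1, h2⟩
      by_cases hj : j = i
      · exact Or.inl hj
      · exact Or.inr ⟨h1, fun h3 => h2 ⟨hj, h3⟩⟩
    · rintro (rfl | ⟨h1, h2⟩)
      · exact ⟨hU hi, fun h3 => h3.1 rfl⟩
      · exact ⟨h1, fun h3 => h2 h3.2⟩
  rw [h, sum_insert (by simp [hi]), add_comm]

/-- A voluntary kill. -/
theorem State.kill {U Cl : Finset ι} {φt : Finset V → ℝ}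
    {Mt Bt : Finset (Sym2 (Fin D.n))} (H : Hyp D) (S : State D U Cl φt Mt Bt)
    (hG : Good 1 D.SS φt (claims (D.μ : ℝ) D.κ Cl D.cap)) {i : ι} (hi : i ∈ U)
    (hD : DD D.SS φt (claims (D.μ : ℝ) D.κ Cl D.cap) (D.κ i) ≤ 0) :
    State D (U.erase i) Cl (kill1 (D.κ i) φt) Mt Bt := by
  have hne : ∀ A, kill1 (D.κ i) φt A ≠ 0 → φt A ≠ 0 ∧ ¬ D.κ i ⊆ A := by
    intro A hA
    unfold kill1 at hA
    by_cases h : D.κ i ⊆ A
    · rw [if_pos h] at hA
      exact absurd rfl hA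
    · rw [if_neg h] at hA
      exact ⟨hA, h⟩
  refine { hU := (erase_subset _ _).trans S.hU, hCl := S.hCl,
           hd := S.hd.mono_right (erase_subset _ _), hM := S.hM, hB := S.hB, hMB := S.hMB,
           hBe := S.hBe, hcl := S.hcl, hφt := ?_, hdead := ?_, halive := ?_, hsl := ?_,
           hPP := ?_ }
  · intro A
    unfold kill1
    by_cases h : D.κ i ⊆ A
    · exact Or.inr (if_pos h)
    · rw [if_neg h]
      exact S.hφt A
  · intro j hj hjU hjC A hA
    by_cases hji : j = i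
    · rw [hji]
      exact (hne A hA).2
    · exact S.hdead j hj (fun h => hjU (mem_erase.2 ⟨hji, h⟩)) hjC A (hne A hA).1
  · intro A hA
    exact S.halive A (hne A hA).1
  · exact S.hsl.mono H.μ0 (S.capt_pos H) (fun A hA => (hne A hA).1) (erase_subset _ _)
  · rw [PP_kill1 _ _ _ _ (S.capt_pos H), sum_erase' H S.hU hi]
    have h1 := S.RR_bound H hG hi
    have h2 := S.hPP
    have h3 := H.err_nonneg (S.hU hi)
    have h4 : (2 : ℝ) ^ D.b ≤ CC D := by
      unfold CC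
      have h5 : (0 : ℝ) ≤ D.m ^ 2 * 2 ^ D.b := by positivity
      have h6 : (0 : ℝ) ≤ D.m * 2 ^ D.m := by positivity
      have h7 := H.hC0
      nlinarith
    have h5 := mul_le_mul_of_nonneg_right h4 h3
    nlinarith

/-- A free claim. -/
theorem State.claim {U Cl : Finset ι} {φt : Finset V → ℝ}
    {Mt Bt : Finset (Sym2 (Fin D.n))} (H : Hyp D) (S : State D U Cl φt Mt Bt)
    (hG : Good 1 D.SS φt (claims (D.μ : ℝ) D.κ Cl D.cap)) {i : ι} (hi : i ∈ U)
    (hD : 0 ≤ DD D.SS φt (claims (D.μ : ℝ) D.κ Cl D.cap) (D.κ i)) (hM : D.ed i ⊆ Mt) :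
    State D (U.erase i) (insert i Cl) (claim1 (D.μ : ℝ) (D.κ i) φt) Mt Bt := by
  have hiC : i ∉ Cl := fun h => (disjoint_left.1 S.hd h) hi
  have hne : ∀ A, claim1 (D.μ : ℝ) (D.κ i) φt A ≠ 0 → φt A ≠ 0 := by
    intro A hA h0
    unfold claim1 at hA
    rw [h0, mul_zero] at hA
    exact hA (ite_self _)
  refine { hU := (erase_subset _ _).trans S.hU, hCl := insert_subset (S.hU hi) S.hCl,
           hd := ?_, hM := S.hM, hB := S.hB, hMB := S.hMB,
           hBe := S.hBe, hcl := ?_, hφt := ?_, hdead := ?_, halive := ?_, hsl := ?_,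
           hPP := ?_ }
  · rw [disjoint_insert_left]
    exact ⟨fun h => (mem_erase.1 h).1 rfl, S.hd.mono_right (erase_subset _ _)⟩
  · intro A
    rw [claims_insert _ _ hiC]
    rcases S.hφt A with h | h
    · left
      unfold claim1
      rw [h]
    · right
      unfold claim1
      rw [h, mul_zero]
      exact ite_self _
  · intro j hj
    rcases mem_insert.1 hj with h | h
    · rw [h]
      exact hM
    · exact S.hcl j h
  · intro j hj hjU hjC A hA
    have hji : j ≠ i := fun h => hjC (by rw [h]; exact mem_insert_self _ _)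
    exact S.hdead j hj (fun h => hjU (mem_erase.2 ⟨hji, h⟩))
      (fun h => hjC (mem_insert_of_mem h)) A (hne A hA)
  · intro A hA
    exact S.halive A (hne A hA)
  · rw [claims_insert _ _ hiC]
    exact S.hsl.claim H.μ0 hi
  · rw [claims_insert _ _ hiC, PP_claim1 H.μ0 _ _ _ _ (S.capt_pos H), sum_erase' H S.hU hi]
    have h1 := S.RR_bound H hG hi
    have h2 := S.hPP
    have h3 := H.err_nonneg (S.hU hi)
    have hμm : (D.μ : ℝ) ≤ D.m := by
      have : D.μ ≤ D.m := by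
        rw [← H.hkμ]
        exact Nat.le_mul_of_pos_left _ H.hk
      exact_mod_cast this
    have h4 : (D.μ : ℝ) ^ 2 * 2 ^ D.b ≤ CC D := by
      unfold CC
      have h5 : (D.μ : ℝ) ^ 2 ≤ D.m ^ 2 := pow_le_pow_left₀ H.μ0 hμm 2
      have h6 : (0 : ℝ) ≤ D.m * 2 ^ D.m := by positivity
      have h7 := H.hC0
      have h8 : (0 : ℝ) < 2 ^ D.b := by positivity
      have h9 := mul_le_mul_of_nonneg_right h5 h8.le
      nlinarith
    have h5 := mul_le_mul_of_nonneg_right h4 h3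
    have h6 : (0 : ℝ) ≤ (D.μ : ℝ) * DD D.SS φt (claims (D.μ : ℝ) D.κ Cl D.cap) (D.κ i) :=
      mul_nonneg H.μ0 hD
    have h7 : (D.μ : ℝ) ^ 2 * RR D.SS φt (claims (D.μ : ℝ) D.κ Cl D.cap) (D.κ i) ≤
        (D.μ : ℝ) ^ 2 * (2 ^ D.b * err D i) := mul_le_mul_of_nonneg_left h1 (by positivity)
    nlinarith

/-- The total weight of the alive structures which contain a given new edge of Breaker. -/
theorem State.edge_weight {U Cl : Finset ι} {φt : Finset V → ℝ}
    {Mt Bt : Finset (Sym2 (Fin D.n))} (H : Hyp D) (S : State D U Cl φt Mt Bt)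
    (hG : Good 1 D.SS φt (claims (D.μ : ℝ) D.κ Cl D.cap)) {I : Finset ι} (hIk : I.card ≤ D.k)
    {φ1 : Finset V → ℝ} (hφ1 : ∀ A, φ1 A = claims (D.μ : ℝ) D.κ I φt A ∨ φ1 A = 0)
    (e : Sym2 (Fin D.n)) (heM : e ∉ D.M)
    (he : ∀ A, φ1 A ≠ 0 → ∀ x ∈ A, ∀ y ∈ A, s(D.emb x, D.emb y) = e → ∀ i ∈ D.act, e ∉ D.ed i) :
    ∑ A : Finset V, (if ∃ x ∈ A, ∃ y ∈ A, x ≠ y ∧ s(D.emb x, D.emb y) = e then φ1 A else 0) ≤
      2 ^ D.m * D.g3 := by
  have hne : ∀ A, φ1 A ≠ 0 → φt A ≠ 0 := by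
    intro A hA h0
    rcases hφ1 A with h | h
    · apply hA
      rw [h]
      unfold claims
      rw [h0, mul_zero]
    · exact hA h
  have h0t := S.nonneg H
  have h01 : ∀ A, 0 ≤ φ1 A := by
    intro A
    rcases hφ1 A with h | h
    · rw [h]
      exact claims_nonneg H.μ0 D.κ I h0t A
    · rw [h]
  by_cases hex : ∃ A, φ1 A ≠ 0 ∧ ∃ x ∈ A, ∃ y ∈ A, x ≠ y ∧ s(D.emb x, D.emb y) = e
  · obtain ⟨A0, hA0, x0, hx0, y0, hy0, hxy0, hs0⟩ := hex
    obtain ⟨T, hT, hTA, hTg⟩ := H.hpas x0 y0 hxy0 (by rw [hs0]; exact heM)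
      (by rw [hs0]; exact he A0 hA0 x0 hx0 y0 hy0 hs0)
      ⟨A0, S.ne_zero (hne A0 hA0), hx0, hy0⟩
    have h1 : ∑ A : Finset V,
        (if ∃ x ∈ A, ∃ y ∈ A, x ≠ y ∧ s(D.emb x, D.emb y) = e then φ1 A else 0) ≤ mass φ1 T := by
      unfold mass
      rw [sum_filter]
      refine sum_le_sum fun A _ => ?_
      split_ifs with h2 h3 h3
      · exact le_rfl
      · by_contra h4
        have h5 : φ1 A ≠ 0 := fun h => h4 (by rw [h])
        obtain ⟨x, hx, y, hy, _, hs⟩ := h2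
        have h6 : s(D.emb x, D.emb y) = s(D.emb x0, D.emb y0) := hs.trans hs0.symm
        rw [Sym2.eq_iff] at h6
        refine h3 (hTA A (S.ne_zero (hne A h5)) ?_ ?_)
        · rcases h6 with ⟨h7, h8⟩ | ⟨h7, h8⟩
          · rw [← D.emb.injective h7]; exact hx
          · rw [← D.emb.injective h8]; exact hy
        · rcases h6 with ⟨h7, h8⟩ | ⟨h7, h8⟩
          · rw [← D.emb.injective h8]; exact hy
          · rw [← D.emb.injective h7]; exact hx
      · exact h01 A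
      · exact le_rfl
    have h2 : mass φ1 T ≤ (1 + (D.μ : ℝ)) ^ I.card * mass φt T := by
      unfold mass
      rw [mul_sum]
      refine sum_le_sum fun A _ => ?_
      rcases hφ1 A with h | h
      · rw [h]
        exact claims_le H.μ0 D.κ I A (h0t A)
      · rw [h]
        exact mul_nonneg (pow_nonneg (by linarith [H.μ0]) _) (h0t A)
    have h3 : mass φt T ≤ D.g3 := S.mass_le H hG hT hTg
    have h4 : (1 + (D.μ : ℝ)) ^ I.card ≤ 2 ^ D.m := by
      have h5 : (1 + (D.μ : ℝ)) ≤ 2 ^ D.μ := by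
        have : 1 + D.μ ≤ 2 ^ D.μ := by
          have := Nat.lt_two_pow_self (n := D.μ)
          omega
        exact_mod_cast this
      calc (1 + (D.μ : ℝ)) ^ I.card ≤ (1 + (D.μ : ℝ)) ^ D.k :=
            pow_le_pow_right₀ (by linarith [H.μ0]) hIk
        _ ≤ (2 ^ D.μ) ^ D.k := pow_le_pow_left₀ (by linarith [H.μ0]) h5 _
        _ = 2 ^ D.m := by rw [← pow_mul, mul_comm, H.hkμ]
    calc _ ≤ mass φ1 T := h1
      _ ≤ (1 + (D.μ : ℝ)) ^ I.card * mass φt T := h2
      _ ≤ 2 ^ D.m * D.g3 := mul_le_mul h4 h3 (mass_nonneg h0t T) (by positivity)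
  · have h1 : ∑ A : Finset V,
        (if ∃ x ∈ A, ∃ y ∈ A, x ≠ y ∧ s(D.emb x, D.emb y) = e then φ1 A else 0) = 0 := by
      refine sum_eq_zero fun A _ => ?_
      split_ifs with h2
      · by_contra h3
        exact hex ⟨A, h3, h2⟩
      · rfl
    rw [h1]
    exact mul_nonneg (by positivity) H.hg3

/-- A round of the game. -/
theorem State.play {U Cl : Finset ι} {φt : Finset V → ℝ}
    {Mt Bt : Finset (Sym2 (Fin D.n))} (H : Hyp D) (S : State D U Cl φt Mt Bt)
    (hG : Good 1 D.SS φt (claims (D.μ : ℝ) D.κ Cl D.cap)) (hUne : U.Nonempty)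
    (hD : ∀ i ∈ U, 0 < DD D.SS φt (claims (D.μ : ℝ) D.κ Cl D.cap) (D.κ i))
    (hM : ∀ i ∈ U, ¬ D.ed i ⊆ Mt)
    (ih : ∀ (U' Cl' : Finset ι) (φ' : Finset V → ℝ) (M' B' : Finset (Sym2 (Fin D.n))),
      U'.card < U.card → State D U' Cl' φ' M' B' → MakerWins D.n D.m D.q true M' B') :
    MakerWins D.n D.m D.q true Mt Bt := by
  have h0t := S.nonneg H
  obtain ⟨I, hIU, hIk, hIne, hJ⟩ := H.hround φt (claims (D.μ : ℝ) D.κ Cl D.cap) U
    (fun i hi => H.hcard i (S.hU hi)) hG S.hsl (fun i hi => (hD i hi).le)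
    (fun i hi => S.mass_le H hG (H.hg1 i (S.hU hi)).1 (H.hg1 i (S.hU hi)).2)
    (fun i hi => H.hg2 i (S.hU hi))
    (by
      intro i hi j hj hij
      by_cases h : mass φt (D.κ i ∪ D.κ j) = 0
      · rw [h]
        exact H.hg2 i (S.hU hi)
      · obtain ⟨A, hA, hφA⟩ := exists_of_mass h
        have h1 := H.hg2' i (S.hU hi) j (S.hU hj) hij ⟨A, S.ne_zero hφA, hA⟩
        exact S.mass_le H hG h1.1 h1.2)
  have hIne := hIne hUne
  have hpos : ∀ i ∈ U, ∃ A, D.κ i ⊆ A ∧ φt A ≠ 0 := by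
    intro i hi
    refine exists_of_mass (ne_of_gt ?_)
    exact (hD i hi).trans_le (DD_le_mass _ h0t (S.capt_pos H) _)
  refine Pool.Agent.Helper85.CliqueLB.round (D := (I.biUnion D.ed) \ Mt) S.hMB S.hBe ?_ ?_ ?_ ?_
  · intro e he
    rw [mem_sdiff, mem_biUnion] at he
    obtain ⟨⟨i, hi, hei⟩, heM⟩ := he
    obtain ⟨x, hx, y, hy, hxy, rfl⟩ := H.hedge i (S.hU (hIU hi)) e hei
    obtain ⟨A, hA, hφA⟩ := hpos i (hIU hi)
    rw [Pool.Agent.Helper85.CliqueLB.mem_free]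
    refine ⟨?_, heM, S.halive A hφA x (hA hx) y (hA hy) hxy⟩
    rw [Sym2.mk_isDiag_iff]
    exact fun h => hxy (D.emb.injective h)
  · obtain ⟨i, hi⟩ := hIne
    obtain ⟨e, he, heM⟩ := not_subset.1 (hM i (hIU hi))
    exact ⟨e, mem_sdiff.2 ⟨mem_biUnion.2 ⟨i, hi, he⟩, heM⟩⟩
  · calc ((I.biUnion D.ed) \ Mt).card ≤ (I.biUnion D.ed).card := card_le_card sdiff_subset
      _ ≤ ∑ i ∈ I, (D.ed i).card := card_biUnion_le
      _ ≤ ∑ _i ∈ I, D.μ := sum_le_sum fun i hi => H.hed i (S.hU (hIU hi))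
      _ = I.card * D.μ := by rw [sum_const, smul_eq_mul]
      _ ≤ D.k * D.μ := Nat.mul_le_mul_right _ hIk
      _ = D.m := H.hkμ
  · intro M' B' h1 h2 h3 h4 h5
    set F : Finset (Sym2 (Fin D.n)) := B' \ Bt with hF
    set J : Finset ι := (U \ I).filter (fun j => ∃ e ∈ D.ed j, e ∈ F) with hJdef
    have hMt : Mt ⊆ M' := subset_union_left.trans h1
    have hedI : ∀ i ∈ I, D.ed i ⊆ M' := by
      intro i hi e he
      by_cases h : e ∈ Mt
      · exact hMt h
      · exact h1 (mem_union_right _ (mem_sdiff.2 ⟨mem_biUnion.2 ⟨i, hi, he⟩, h⟩))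
    have hJU : J ⊆ U \ I := filter_subset _ _
    have hJm : J.card ≤ D.m := by
      have h6 : (J.biUnion (fun j => D.ed j ∩ F)).card = ∑ j ∈ J, (D.ed j ∩ F).card := by
        refine card_biUnion fun i hi j hj hij => ?_
        have hi' := S.hU (mem_sdiff.1 (hJU hi)).1
        have hj' := S.hU (mem_sdiff.1 (hJU hj)).1
        exact (H.hdis i hi' j hj' hij).mono inter_subset_left inter_subset_left
      have h7 : J.card ≤ ∑ j ∈ J, (D.ed j ∩ F).card := by
        rw [card_eq_sum_ones]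
        refine sum_le_sum fun j hj => ?_
        rw [hJdef, mem_filter] at hj
        obtain ⟨_, e, he, heF⟩ := hj
        exact card_pos.2 ⟨e, mem_inter.2 ⟨he, heF⟩⟩
      have h8 : (J.biUnion (fun j => D.ed j ∩ F)).card ≤ F.card := by
        refine card_le_card ?_
        intro e he
        rw [mem_biUnion] at he
        obtain ⟨j, _, hj⟩ := he
        exact (mem_inter.1 hj).2
      omega
    have h7 := hJ J hJU hJm
    set φ1 : Finset V → ℝ := kills D.κ J (claims (D.μ : ℝ) D.κ I φt) with hφ1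
    set φ2 : Finset V → ℝ := fun A =>
      if ∃ x ∈ A, ∃ y ∈ A, x ≠ y ∧ s(D.emb x, D.emb y) ∈ F then 0 else φ1 A with hφ2
    have hφ1' : ∀ A, φ1 A = claims (D.μ : ℝ) D.κ I φt A ∨ φ1 A = 0 := by
      intro A
      rw [hφ1]
      unfold kills
      by_cases h : ∃ j ∈ J, D.κ j ⊆ A
      · exact Or.inr (if_pos h)
      · exact Or.inl (if_neg h)
    have hφ2' : ∀ A, φ2 A = φ1 A ∨ φ2 A = 0 := by
      intro A
      rw [hφ2]
      by_cases h : ∃ x ∈ A, ∃ y ∈ A, x ≠ y ∧ s(D.emb x, D.emb y) ∈ F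
      · exact Or.inr (if_pos h)
      · exact Or.inl (if_neg h)
    have hne1 : ∀ A, φ1 A ≠ 0 → φt A ≠ 0 ∧ ∀ j ∈ J, ¬ D.κ j ⊆ A := by
      intro A hA
      constructor
      · intro h0
        rcases hφ1' A with h | h
        · apply hA
          rw [h]
          unfold claims
          rw [h0, mul_zero]
        · exact hA h
      · intro j hj hjA
        apply hA
        rw [hφ1]
        unfold kills
        exact if_pos ⟨j, hj, hjA⟩
    have hne2 : ∀ A, φ2 A ≠ 0 → φ1 A ≠ 0 ∧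
        ∀ x ∈ A, ∀ y ∈ A, x ≠ y → s(D.emb x, D.emb y) ∉ F := by
      intro A hA
      by_cases h : ∃ x ∈ A, ∃ y ∈ A, x ≠ y ∧ s(D.emb x, D.emb y) ∈ F
      · exact absurd (by rw [hφ2]; exact if_pos h) hA
      · have h8 : φ2 A = φ1 A := by rw [hφ2]; exact if_neg h
        rw [h8] at hA
        exact ⟨hA, fun x hx y hy hxy hs => h ⟨x, hx, y, hy, hxy, hs⟩⟩
    have h01 : ∀ A, 0 ≤ φ1 A := by
      intro A
      rcases hφ1' A with h | h
      · rw [h]
        exact claims_nonneg H.μ0 D.κ I h0t A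
      · rw [h]
    have hIJU : I ∪ J ⊆ U := union_subset hIU (hJU.trans sdiff_subset)
    have hClI : Disjoint Cl I := S.hd.mono_right hIU
    have hlt : (U \ (I ∪ J)).card < U.card := by
      refine card_lt_card ?_
      rw [ssubset_iff_of_subset sdiff_subset]
      obtain ⟨i, hi⟩ := hIne
      exact ⟨i, hIU hi, fun h => (mem_sdiff.1 h).2 (mem_union_left _ hi)⟩
    -- the new edges of Breaker
    have hFe : ∀ e ∈ F, e ∉ D.M ∧
        ∀ A, φ1 A ≠ 0 → ∀ x ∈ A, ∀ y ∈ A, s(D.emb x, D.emb y) = e → ∀ i ∈ D.act, e ∉ D.ed i := by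
      intro e he
      have heB : e ∈ B' := (mem_sdiff.1 he).1
      have heM' : e ∉ M' := fun h => (disjoint_left.1 h3 h) heB
      refine ⟨fun h => heM' (hMt (S.hM h)), ?_⟩
      intro A hA x hx y hy hs i hi hei
      have hφA := (hne1 A hA).1
      have hκ : D.κ i ⊆ A := H.hlink A (S.ne_zero hφA) i hi x hx y hy (by rw [hs]; exact hei)
      by_cases hiU : i ∈ U
      · by_cases hiI : i ∈ I
        · exact heM' (hedI i hiI hei)
        · exact (hne1 A hA).2 i (mem_filter.2 ⟨mem_sdiff.2 ⟨hiU, hiI⟩, e, hei, he⟩) hκ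
      · by_cases hiC : i ∈ Cl
        · exact heM' (hMt (S.hcl i hiC hei))
        · exact S.hdead i hi hiU hiC A hφA hκ
    have hW : ∑ A ∈ univ.filter (fun A => φ2 A ≠ φ1 A), φ1 A ≤ D.m * 2 ^ D.m * D.g3 := by
      calc ∑ A ∈ univ.filter (fun A => φ2 A ≠ φ1 A), φ1 A
          ≤ ∑ A ∈ univ.filter (fun A => φ2 A ≠ φ1 A), ∑ e ∈ F,
              (if ∃ x ∈ A, ∃ y ∈ A, x ≠ y ∧ s(D.emb x, D.emb y) = e then φ1 A else 0) := by
            refine sum_le_sum fun A hA => ?_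
            rw [mem_filter] at hA
            have h8 : ∃ x ∈ A, ∃ y ∈ A, x ≠ y ∧ s(D.emb x, D.emb y) ∈ F := by
              by_contra h9
              exact hA.2 (by rw [hφ2]; exact if_neg h9)
            obtain ⟨x, hx, y, hy, hxy, hs⟩ := h8
            have h9 : (if ∃ x' ∈ A, ∃ y' ∈ A, x' ≠ y' ∧ s(D.emb x', D.emb y') =
                s(D.emb x, D.emb y) then φ1 A else 0) = φ1 A :=
              if_pos ⟨x, hx, y, hy, hxy, rfl⟩
            refine h9.symm.le.trans ?_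
            refine single_le_sum (f := fun e => if ∃ x' ∈ A, ∃ y' ∈ A, x' ≠ y' ∧
              s(D.emb x', D.emb y') = e then φ1 A else 0) (fun e _ => ?_) hs
            split_ifs
            · exact h01 A
            · exact le_rfl
        _ ≤ ∑ A : Finset V, ∑ e ∈ F,
              (if ∃ x ∈ A, ∃ y ∈ A, x ≠ y ∧ s(D.emb x, D.emb y) = e then φ1 A else 0) := by
            refine sum_le_sum_of_subset_of_nonneg (filter_subset _ _) fun A _ _ => ?_
            refine sum_nonneg fun e _ => ?_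
            split_ifs
            · exact h01 A
            · exact le_rfl
        _ = ∑ e ∈ F, ∑ A : Finset V,
              (if ∃ x ∈ A, ∃ y ∈ A, x ≠ y ∧ s(D.emb x, D.emb y) = e then φ1 A else 0) :=
            sum_comm
        _ ≤ ∑ _e ∈ F, 2 ^ D.m * D.g3 := by
            refine sum_le_sum fun e he => ?_
            exact S.edge_weight H hG hIk hφ1' e (hFe e he).1 (hFe e he).2
        _ = F.card * (2 ^ D.m * D.g3) := by rw [sum_const, nsmul_eq_mul]
        _ ≤ D.m * (2 ^ D.m * D.g3) := by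
            refine mul_le_mul_of_nonneg_right (by exact_mod_cast h5) ?_
            exact mul_nonneg (by positivity) H.hg3
        _ = D.m * 2 ^ D.m * D.g3 := by ring
    refine ih (U \ (I ∪ J)) (Cl ∪ I) φ2 M' B' hlt ?_
    refine { hU := sdiff_subset.trans S.hU, hCl := union_subset S.hCl (hIU.trans S.hU),
             hd := ?_, hM := S.hM.trans hMt, hB := S.hB.trans h2, hMB := h3,
             hBe := h4, hcl := ?_, hφt := ?_, hdead := ?_, halive := ?_, hsl := ?_,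
             hPP := ?_ }
    · rw [disjoint_union_left]
      refine ⟨S.hd.mono_right sdiff_subset, ?_⟩
      rw [disjoint_left]
      intro i hi h
      exact (mem_sdiff.1 h).2 (mem_union_left _ hi)
    · intro A
      rw [claims_union _ _ hClI]
      rcases hφ2' A with h | h
      · rcases hφ1' A with h' | h'
        · rcases S.hφt A with h'' | h''
          · left
            rw [h, h']
            unfold claims at h'' ⊢
            rw [h'']
          · right
            rw [h, h']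
            unfold claims
            rw [h'', mul_zero]
        · exact Or.inr (h.trans h')
      · exact Or.inr h
    · intro i hi
      rcases mem_union.1 hi with h | h
      · exact (S.hcl i h).trans hMt
      · exact hedI i h
    · intro i hi hiU hiC A hA
      have h8 := hne2 A hA
      have h9 := hne1 A h8.1
      by_cases hiU' : i ∈ U
      · have hiI : i ∉ I := fun h => hiC (mem_union_right _ h)
        have hiJ : i ∈ J := by
          by_contra h10
          exact hiU (mem_sdiff.2 ⟨hiU', fun h => (mem_union.1 h).elim hiI h10⟩)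
        exact h9.2 i hiJ
      · exact S.hdead i hi hiU' (fun h => hiC (mem_union_left _ h)) A h9.1
    · intro A hA x hx y hy hxy hs
      have h8 := hne2 A hA
      have h9 := hne1 A h8.1
      by_cases hs' : s(D.emb x, D.emb y) ∈ Bt
      · exact S.halive A h9.1 x hx y hy hxy hs'
      · exact h8.2 x hx y hy hxy (mem_sdiff.2 ⟨hs, hs'⟩)
    · rw [claims_union _ _ hClI]
      have h8 := slopeA_claims S.hsl H.μ0 I hIU
      refine h8.mono H.μ0 (claims_pos H.μ0 D.κ I (S.capt_pos H)) ?_ ?_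
      · intro A hA
        have h9 := (hne2 A hA).1
        rcases hφ1' A with h | h
        · rw [← h]
          exact h9
        · exact absurd h h9
      · intro i hi
        rw [mem_sdiff] at hi ⊢
        exact ⟨hi.1, fun h => hi.2 (mem_union_left _ h)⟩
    · rw [claims_union _ _ hClI]
      have h8 := PP_remove D.SS φ1 φ2 (claims (D.μ : ℝ) D.κ I (claims (D.μ : ℝ) D.κ Cl D.cap))
        (claims_pos H.μ0 D.κ I (S.capt_pos H)) h01 hφ2'
      have h9 := S.hPP
      have hset : D.act \ (U \ (I ∪ J)) = (D.act \ U) ∪ (I ∪ J) := by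
        ext i
        simp only [mem_sdiff, mem_union]
        constructor
        · rintro ⟨ha, hb⟩
          by_cases hu : i ∈ U
          · right
            by_contra hc
            exact hb ⟨hu, hc⟩
          · exact Or.inl ⟨ha, hu⟩
        · rintro (⟨ha, hb⟩ | hc)
          · exact ⟨ha, fun h => hb h.1⟩
          · exact ⟨S.hU (hIJU (mem_union.2 hc)), fun h => h.2 hc⟩
      have hdisj : Disjoint (D.act \ U) (I ∪ J) := by
        rw [disjoint_left]
        intro i hi h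
        exact (mem_sdiff.1 hi).2 (hIJU h)
      rw [hset, sum_union hdisj, mul_add]
      have h10 : D.C0 * ∑ i ∈ I ∪ J, (D.ν * D.g1 i + D.g2 i) + D.m * 2 ^ D.m * D.g3 ≤
          CC D * ∑ i ∈ I ∪ J, err D i := by
        have hE1 : ∑ i ∈ I ∪ J, (D.ν * D.g1 i + D.g2 i) ≤ ∑ i ∈ I ∪ J, err D i := by
          refine sum_le_sum fun i _ => ?_
          unfold err
          have := H.hg3
          linarith
        have hE2 : D.g3 ≤ ∑ i ∈ I ∪ J, err D i := by
          obtain ⟨i, hi⟩ := hIne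
          have ha : D.g3 ≤ err D i := by
            unfold err
            have ha1 := mul_nonneg H.hν (H.g1_pos (S.hU (hIU hi))).le
            have ha2 := H.hg2 i (S.hU (hIU hi))
            linarith
          refine ha.trans (single_le_sum (f := err D) (fun j hj => ?_) (mem_union_left _ hi))
          exact H.err_nonneg (S.hU (hIJU hj))
        have hE0 : 0 ≤ ∑ i ∈ I ∪ J, err D i := H.hg3.trans hE2
        have hC0 := H.hC0
        have hm1 : (0 : ℝ) ≤ D.m * 2 ^ D.m := by positivity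
        have hm2 : (0 : ℝ) ≤ ((D.m : ℝ) ^ 2 + 1) * 2 ^ D.b := by positivity
        have hm3 := mul_nonneg hm2 hE0
        unfold CC
        have hE3 := mul_le_mul_of_nonneg_left hE1 hC0.le
        have hE4 := mul_le_mul_of_nonneg_left hE2 hm1
        nlinarith
      linarith

/-- The whole phase. -/
theorem main (H : Hyp D)
    (cont : ∀ (M' B' : Finset (Sym2 (Fin D.n))) (φ' : Finset V → ℝ), D.M ⊆ M' → D.B ⊆ B' →
      Disjoint M' B' → B' ⊆ edges D.n →
      (∀ A, φ' A = claims (D.μ : ℝ) D.κ D.act D.φ A ∨ φ' A = 0) → AliveB D.emb φ' B' →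
      (∀ A, φ' A ≠ 0 → ∀ i ∈ D.act, D.κ i ⊆ A → D.ed i ⊆ M') →
      PP D.SS D.φ D.cap - CC D * ∑ i ∈ D.act, err D i ≤
        PP D.SS φ' (claims (D.μ : ℝ) D.κ D.act D.cap) →
      MakerWins D.n D.m D.q true M' B') :
    ∀ (N : ℕ) (U Cl : Finset ι) (φt : Finset V → ℝ) (Mt Bt : Finset (Sym2 (Fin D.n))),
      U.card < N → State D U Cl φt Mt Bt → MakerWins D.n D.m D.q true Mt Bt := by
  intro N
  induction N with
  | zero =>
    intro U Cl φt Mt Bt h
    exact absurd h (Nat.not_lt_zero _)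
  | succ N ih =>
    intro U Cl φt Mt Bt hN S0
    obtain ⟨φ', h1, hG, h2⟩ := delete (SS := D.SS) (S0.nonneg H) (S0.capt_pos H)
    have S := S0.shrink H h1 h2
    clear S0 h1 h2
    rcases U.eq_empty_or_nonempty with hU | hU
    · subst hU
      have hne : ∀ A, φ' A ≠ 0 → D.act.filter (fun i => D.κ i ⊆ A) =
          Cl.filter (fun i => D.κ i ⊆ A) := by
        intro A hA
        ext i
        simp only [mem_filter]
        constructor
        · rintro ⟨ha, hb⟩
          refine ⟨?_, hb⟩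
          by_contra hc
          exact S.hdead i ha (notMem_empty _) hc A hA hb
        · rintro ⟨ha, hb⟩
          exact ⟨S.hCl ha, hb⟩
      refine cont Mt Bt φ' S.hM S.hB S.hMB S.hBe ?_ S.halive ?_ ?_
      · intro A
        by_cases hA : φ' A = 0
        · exact Or.inr hA
        · rcases S.hφt A with h | h
          · left
            rw [h]
            unfold claims
            rw [hne A hA]
          · exact Or.inr h
      · intro A hA i hi hiA
        have : i ∈ Cl := by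
          by_contra hc
          exact S.hdead i hi (notMem_empty _) hc A hA hiA
        exact S.hcl i this
      · have h3 := S.hPP
        rw [sdiff_empty] at h3
        refine h3.trans (PP_mono_cap _ _ (S.capt_pos H) fun T => ?_)
        exact claims_mono H.μ0 D.κ S.hCl T (H.hcap T).le
    · by_cases hk : ∃ i ∈ U, DD D.SS φ' (claims (D.μ : ℝ) D.κ Cl D.cap) (D.κ i) ≤ 0
      · obtain ⟨i, hi, hD⟩ := hk
        refine ih _ _ _ _ _ ?_ (S.kill H hG hi hD)
        have := card_erase_lt_of_mem hi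
        omega
      · push Not at hk
        by_cases hc : ∃ i ∈ U, D.ed i ⊆ Mt
        · obtain ⟨i, hi, hM⟩ := hc
          refine ih _ _ _ _ _ ?_ (S.claim H hG hi (hk i hi).le hM)
          have := card_erase_lt_of_mem hi
          omega
        · push Not at hc
          refine S.play H hG hU hk hc ?_
          intro U' Cl' φ'' M' B' hlt S'
          exact ih _ _ _ _ _ (by omega) S'

end state

end PhaseAux

/-- CG-F: one phase of the game -/
theorem phase (m b : ℕ) (hm : 1 ≤ m) : ∃ C : ℝ, 0 < C ∧ ∀ {n q : ℕ} {V ι : Type} [Fintype V]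
    (emb : V ↪ Fin n) (SS : Finset (Finset V)) (act : Finset ι) (κ : ι → Finset V)
    (ed : ι → Finset (Sym2 (Fin n))) (μ k : ℕ) (ν g3 : ℝ) (g1 g2 : ι → ℝ)
    (φ cap : Finset V → ℝ) (M B : Finset (Sym2 (Fin n))),
    1 ≤ μ → 1 ≤ k → k * μ = m → 0 ≤ ν → ν ≤ 1 → Disjoint M B → B ⊆ edges n →
    (∀ i ∈ act, (κ i).card ≤ b) →
    (∀ i ∈ act, (ed i).card ≤ μ) →
    (∀ i ∈ act, ∀ e ∈ ed i, ∃ x ∈ κ i, ∃ y ∈ κ i, x ≠ y ∧ e = s(emb x, emb y)) →
    (∀ i ∈ act, ∀ j ∈ act, i ≠ j → Disjoint (ed i) (ed j)) →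
    (∀ A, φ A ≠ 0 → ∀ i ∈ act, ∀ x ∈ A, ∀ y ∈ A, s(emb x, emb y) ∈ ed i → κ i ⊆ A) →
    (∀ A, 0 ≤ φ A) → (∀ S, 0 < cap S) → AliveB emb φ B → SlopeA ν SS φ cap act κ μ →
    -- masses of the active elements
    (∀ i ∈ act, κ i ∈ SS ∧ claims (μ : ℝ) κ act cap (κ i) ≤ g1 i) →
    (∀ i ∈ act, 0 ≤ g2 i) →
    (∀ i ∈ act, ∀ j ∈ act, i ≠ j → (∃ A, φ A ≠ 0 ∧ κ i ∪ κ j ⊆ A) →
      κ i ∪ κ j ∈ SS ∧ claims (μ : ℝ) κ act cap (κ i ∪ κ j) ≤ g2 i) →
    -- masses of the other pairs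
    0 ≤ g3 →
    (∀ x y, x ≠ y → s(emb x, emb y) ∉ M → (∀ i ∈ act, s(emb x, emb y) ∉ ed i) →
      (∃ A, φ A ≠ 0 ∧ x ∈ A ∧ y ∈ A) →
      ∃ S ∈ SS, (∀ A, φ A ≠ 0 → x ∈ A → y ∈ A → S ⊆ A) ∧
        claims (μ : ℝ) κ act cap S ≤ g3) →
    -- continuation
    (∀ (M' B' : Finset (Sym2 (Fin n))) (φ' : Finset V → ℝ), M ⊆ M' → B ⊆ B' → Disjoint M' B' →
      B' ⊆ edges n → (∀ A, φ' A = claims (μ : ℝ) κ act φ A ∨ φ' A = 0) → AliveB emb φ' B' →
      (∀ A, φ' A ≠ 0 → ∀ i ∈ act, κ i ⊆ A → ed i ⊆ M') →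
      PP SS φ cap - C * ∑ i ∈ act, (ν * g1 i + g2 i + g3) ≤
        PP SS φ' (claims (μ : ℝ) κ act cap) →
      MakerWins n m q true M' B') →
    MakerWins n m q true M B := by
  obtain ⟨C0, hC0, hr⟩ := round m b
  refine ⟨C0 + ((m : ℝ) ^ 2 + 1) * 2 ^ b + m * 2 ^ m, by positivity, ?_⟩
  intro n q V ι _ emb SS act κ ed μ k ν g3 g1 g2 φ cap M B hμ hk hkμ hν hν1 hMB hBe hcard hed
    hedge hdis hlink hφ hcap halive hsl hg1 hg2 hg2' hg3 hpas cont
  let D : PhaseAux.Data V ι :=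
    { n := n, q := q, m := m, b := b, emb := emb, SS := SS, act := act, κ := κ, ed := ed,
      μ := μ, k := k, ν := ν, g3 := g3, g1 := g1, g2 := g2, φ := φ, cap := cap, M := M, B := B,
      C0 := C0 }
  have H : PhaseAux.Hyp D :=
    { hμ := hμ, hk := hk, hkμ := hkμ, hν := hν, hcard := hcard, hed := hed, hedge := hedge,
      hdis := hdis, hlink := hlink, hφ := hφ, hcap := hcap, hg1 := hg1, hg2 := hg2,
      hg2' := hg2', hg3 := hg3, hpas := hpas, hC0 := hC0,
      hround := fun φ' cap' act' a1 a2 a3 a4 a5 a6 a7 =>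
        hr SS φ' cap' act' κ μ k ν g1 g2 hμ hk hkμ hν hν1 a1 a2 a3 a4 a5 a6 a7 }
  refine PhaseAux.main (D := D) H cont (act.card + 1) act ∅ φ M B (Nat.lt_succ_self _) ?_
  refine { hU := Subset.refl _, hCl := empty_subset _, hd := disjoint_empty_left _,
           hM := Subset.refl _, hB := Subset.refl _, hMB := hMB, hBe := hBe,
           hcl := fun i hi => absurd hi (notMem_empty _), hφt := fun A => Or.inl ?_,
           hdead := fun i hi hi' => absurd hi hi', halive := halive, hsl := ?_, hPP := ?_ }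
  · rw [PhaseAux.claims_empty]
  · rw [PhaseAux.claims_empty]
    exact hsl
  · rw [PhaseAux.claims_empty]
    change PP SS φ cap - PhaseAux.CC D * ∑ i ∈ act \ act, PhaseAux.err D i ≤ PP SS φ cap
    rw [Finset.sdiff_self, sum_empty, mul_zero, sub_zero]

end Pool.Agent.Helper75.CG
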